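import Pool.Agent.V1120.Ladder.Corson

/-!
# Ladders, avoidance and the closing-off club, from cofinality hypotheses
-/

set_option autoImplicit false
set_option linter.unusedSectionVars false

namespace Pool.Agent.V1120.Ladder

open Set Filter Topology

variable {α : Type} [LinearOrder α]

/-- A ladder at a point of countable cofinality. -/
theorem exists_ladder_at (a : α) (ha : Order.cof (Iio a) = Cardinal.aleph0) :
    ∃ e : ℕ → α, StrictMono e ∧ (∀ n, e n < a) ∧ ∀ x < a, ∃ n, x < e n := by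
  classical
  obtain ⟨s, hs, hcard⟩ := Order.exists_cof_eq (α := Iio a)
  rw [ha] at hcard
  have hsc : s.Countable := by
    rw [← Cardinal.le_aleph0_iff_set_countable, hcard]
  have hsne : s.Nonempty := by
    rw [Set.nonempty_iff_ne_empty]
    rintro rfl
    rw [Cardinal.mk_eq_zero] at hcard
    exact Cardinal.aleph0_ne_zero hcard.symm
  obtain ⟨b, hb⟩ := hsc.exists_eq_range hsne
  have hne1 : Order.cof (Iio a) ≠ 1 := by
    rw [ha]
    exact Cardinal.one_lt_aleph0.ne'
  have hmax : NoMaxOrder (Iio a) := (noTopOrder_iff_noMaxOrder _).1 (Order.cof_ne_one_iff.1 hne1)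
  choose g hg using fun x : Iio a => exists_gt x
  let e : ℕ → Iio a := fun n => Nat.rec (b 0) (fun k x => g (max x (b k))) n
  have he : ∀ n, e (n + 1) = g (max (e n) (b n)) := fun n => rfl
  have h1 : ∀ n, e n < e (n + 1) := by
    intro n
    rw [he]
    exact (le_max_left _ _).trans_lt (hg _)
  have h2 : ∀ n, b n < e (n + 1) := by
    intro n
    rw [he]
    exact (le_max_right _ _).trans_lt (hg _)
  refine ⟨fun n => Subtype.val (e n), ?_, fun n => (e n).2, ?_⟩
  · exact strictMono_nat_of_lt_succ (fun n => h1 n)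
  · intro x hx
    obtain ⟨y, hy, hxy⟩ := hs ⟨x, hx⟩
    rw [hb] at hy
    obtain ⟨n, rfl⟩ := hy
    exact ⟨n + 1, lt_of_le_of_lt (show x ≤ (b n : α) from hxy) (h2 n)⟩

theorem exists_ladder {S : Set α} (hS : ∀ a ∈ S, Order.cof (Iio a) = Cardinal.aleph0) :
    ∃ η : S → ℕ → α, IsLadder η := by
  choose e h1 h2 h3 using fun a : S => exists_ladder_at (a : α) (hS a a.2)
  exact ⟨e, ⟨h1, h2, h3⟩⟩

theorem avoid_of_countable {S : Set α} (hS : ∀ a ∈ S, ∃ c, c < a) {δ : α}
    (hδ : Order.cof (Iio δ) ≤ Cardinal.aleph0) : Avoid S δ := by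
  classical
  obtain ⟨s, hs, hcard⟩ := Order.exists_cof_eq (α := Iio δ)
  rw [← hcard, Cardinal.le_aleph0_iff_set_countable] at hδ
  rcases s.eq_empty_or_nonempty with rfl | hne
  · refine ⟨∅, empty_subset _, ?_, ?_⟩
    · intro x hx
      obtain ⟨y, hy, _⟩ := hs ⟨x, hx⟩
      exact absurd hy (notMem_empty y)
    · intro a ha _
      obtain ⟨c, hc⟩ := hS a ha
      exact ⟨c, hc, fun x hx => absurd hx (notMem_empty x)⟩
  · obtain ⟨b, hb⟩ := hδ.exists_eq_range hne
    let c : ℕ → α := fun n => (partialSups (fun k => (b k : α))) n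
    have hcm : Monotone c := (partialSups (fun k => (b k : α))).monotone
    have hcδ : ∀ n, c n < δ := by
      intro n
      simp only [c]
      induction n with
      | zero =>
        rw [partialSups_zero]
        exact (b 0).2
      | succ n ih =>
        rw [partialSups_add_one]
        exact max_lt ih (b (n + 1)).2
    have hcb : ∀ n, (b n : α) ≤ c n := fun n => le_partialSups (fun k => (b k : α)) n
    refine ⟨range c, ?_, ?_, ?_⟩
    · rintro _ ⟨n, rfl⟩
      exact hcδ n
    · intro x hx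
      obtain ⟨y, hy, hxy⟩ := hs ⟨x, hx⟩
      rw [hb] at hy
      obtain ⟨n, rfl⟩ := hy
      exact ⟨c n, ⟨n, rfl⟩, (show x ≤ (b n : α) from hxy).trans (hcb n)⟩
    · intro a ha haδ
      obtain ⟨c₀, hc₀⟩ := hS a ha
      obtain ⟨y, hy, hay⟩ := hs ⟨a, haδ⟩
      rw [hb] at hy
      obtain ⟨m, rfl⟩ := hy
      have ham : a ≤ c m := (show a ≤ (b m : α) from hay).trans (hcb m)
      let T : Finset α := insert c₀ (((Finset.range m).image c).filter (fun x => x < a))
      have hT : T.Nonempty := ⟨c₀, Finset.mem_insert_self _ _⟩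
      have hTa : ∀ x ∈ T, x < a := by
        intro x hx
        rcases Finset.mem_insert.1 hx with rfl | hx
        · exact hc₀
        · exact (Finset.mem_filter.1 hx).2
      refine ⟨T.max' hT, hTa _ (T.max'_mem hT), ?_⟩
      rintro _ ⟨n, rfl⟩ hna
      apply T.le_max'
      apply Finset.mem_insert_of_mem
      rw [Finset.mem_filter, Finset.mem_image]
      refine ⟨⟨n, ?_, rfl⟩, hna⟩
      rw [Finset.mem_range]
      by_contra hcon
      exact absurd (ham.trans (hcm (not_lt.1 hcon))) (not_le.2 hna)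

theorem avoid_of_not_isStationary {S : Set α} (hS : ∀ a ∈ S, ∃ c, c < a) {δ : α}
    (hδ : ¬ IsStationary {x : Iio δ | (x : α) ∈ S}) : Avoid S δ := by
  classical
  obtain ⟨t, ht, hdisj⟩ := not_isStationary_iff.1 hδ
  refine ⟨Subtype.val '' t, ?_, ?_, ?_⟩
  · rintro _ ⟨x, _, rfl⟩
    exact x.2
  · intro x hx
    obtain ⟨y, hy, hxy⟩ := ht.isCofinal ⟨x, hx⟩
    exact ⟨y, ⟨y, hy, rfl⟩, hxy⟩
  · intro a ha haδ
    by_contra hcon
    push Not at hcon
    -- `a` is a limit point of `t`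
    have hat : (⟨a, haδ⟩ : Iio δ) ∈ t := by
      refine ht.isLUB_mem (t := {x | x ∈ t ∧ (x : α) < a}) (fun x hx => hx.1) ?_ ?_
      · obtain ⟨c, hc⟩ := hS a ha
        obtain ⟨_, ⟨x, hx, rfl⟩, hxa, _⟩ := hcon c hc
        exact ⟨x, hx, hxa⟩
      · refine ⟨fun x hx => ?_, fun u hu => ?_⟩
        · exact (show (x : α) ≤ a from hx.2.le)
        · by_contra hau
          have hau' : (u : α) < a := not_le.1 hau
          obtain ⟨_, ⟨x, hx, rfl⟩, hxa, hux⟩ := hcon u hau'
          exact absurd (hu ⟨hx, hxa⟩) (not_le.2 hux)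
    exact Set.disjoint_left.1 hdisj (show (⟨a, haδ⟩ : Iio δ) ∈ {x : Iio δ | (x : α) ∈ S} from ha)
      hat

theorem club_of_stationary [WellFoundedLT α] {S : Set α} (hst : IsStationary S)
    (hbdd : ∀ B : Set α, B.Countable → ∃ b, ∀ x ∈ B, x < b)
    (hIio : ∀ (G : α → α) (a : α), ∃ b, ∀ x ∈ G '' Iio a, x < b) (G : α → α) :
    ∃ δ : α, δ ∈ S ∧ ∀ i < δ, G i < δ := by
  classical
  suffices h : IsClub {δ : α | ∀ i < δ, G i < δ} by
    obtain ⟨δ, h1, h2⟩ := hst h
    exact ⟨δ, h1, h2⟩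
  refine ⟨?_, ?_⟩
  · intro d hd _ _ a ha i hi
    obtain ⟨x, hx, hix⟩ := (lt_isLUB_iff ha).1 hi
    exact (hd hx i hix).trans_le (ha.1 hx)
  · intro a
    choose h hh using fun x : α => hIio G x
    have hh2 : ∀ x : α, ∃ y, x < y ∧ ∀ i < x, G i < y := by
      intro x
      obtain ⟨b, hb⟩ := hbdd {x, h x} (by simp)
      exact ⟨b, hb x (by simp), fun i hi => (hh x _ ⟨i, hi, rfl⟩).trans (hb (h x) (by simp))⟩
    choose k hk1 hk2 using hh2
    let u : ℕ → α := fun n => k^[n] a
    obtain ⟨b, hb⟩ := hbdd (range u) (countable_range u)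
    have hne : {y | ∀ n, u n ≤ y}.Nonempty := ⟨b, fun n => (hb _ ⟨n, rfl⟩).le⟩
    obtain ⟨δ, hδ, hmin⟩ := WellFounded.has_min (wellFounded_lt (α := α)) _ hne
    have hu : ∀ n, u (n + 1) = k (u n) := fun n => Function.iterate_succ_apply' k n a
    refine ⟨δ, ?_, hδ 0⟩
    intro i hi
    have : ∃ n, i < u n := by
      by_contra hcon
      push Not at hcon
      exact hmin i hcon hi
    obtain ⟨n, hn⟩ := this
    have h1 := hk2 (u n) i hn
    rw [← hu] at h1
    exact h1.trans_le (hδ (n + 1))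

/-- The main theorem, for a well-ordered type. -/
theorem main [WellFoundedLT α] {S : Set α}
    (hω : ∀ a ∈ S, Order.cof (Iio a) = Cardinal.aleph0)
    (hst : IsStationary S)
    (hnr : ∀ δ : α, Cardinal.aleph0 < Order.cof (Iio δ) →
      ¬ IsStationary {x : Iio δ | (x : α) ∈ S})
    (hcont : ∀ B : Set α, Cardinal.mk B ≤ Cardinal.continuum → ∃ b, ∀ x ∈ B, x < b)
    (hIio : ∀ (G : α → α) (a : α), ∃ b, ∀ x ∈ G '' Iio a, x < b) :
    ∃ (X : Type) (_ : TopologicalSpace X), CompactSpace X ∧ T2Space X ∧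
      (∀ A : Set X, Cardinal.mk A ≤ Cardinal.continuum →
        ∃ (Γ : Type) (f : ↥(closure A) → (Γ → ℝ)),
          Topology.IsEmbedding f ∧ ∀ x, (Function.support (f x)).Countable) ∧
      ¬ ∃ (Γ : Type) (f : X → (Γ → ℝ)),
        Topology.IsEmbedding f ∧ ∀ x, (Function.support (f x)).Countable := by
  classical
  obtain ⟨η, hη⟩ := exists_ladder hω
  have hpred : ∀ a ∈ S, ∃ c, c < a := fun a ha => ⟨η ⟨a, ha⟩ 0, hη.lt ⟨a, ha⟩ 0⟩
  have hC : ∀ δ, Avoid S δ := by
    intro δ
    rcases le_or_gt (Order.cof (Iio δ)) Cardinal.aleph0 with h | h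
    · exact avoid_of_countable hpred h
    · exact avoid_of_not_isStationary hpred (hnr δ h)
  have hbdd : ∀ B : Set α, B.Countable → ∃ b, ∀ x ∈ B, x < b := fun B hB =>
    hcont B ((Cardinal.le_aleph0_iff_set_countable.2 hB).trans Cardinal.aleph0_le_continuum)
  have ht2 := hη.t2
  refine ⟨OnePoint (LSpace η), inferInstance, inferInstance, inferInstance, ?_, ?_⟩
  · intro A hA
    have hB : Cardinal.mk (lvl '' (((↑) : LSpace η → OnePoint (LSpace η)) ⁻¹' A)) ≤
        Cardinal.continuum := by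
      refine (Cardinal.mk_image_le).trans (le_trans ?_ hA)
      exact Cardinal.mk_preimage_of_injective _ _ OnePoint.coe_injective
    obtain ⟨δ, hδ⟩ := hcont _ hB
    obtain ⟨f, hf⟩ := exists_tails hη hC δ
    refine corson_of_bounded hη δ f hf A ?_
    intro x hx
    rcases hx' : x with _ | y
    · rintro ⟨z, _, hz⟩
      exact OnePoint.coe_ne_infty z hz
    · refine coe_mem_below.2 (hδ (lvl y) ⟨y, ?_, rfl⟩).le
      rw [hx'] at hx
      exact hx
  · exact not_corson hη hbdd (fun G => club_of_stationary hst hbdd hIio G)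

end Pool.Agent.V1120.Ladder
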