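import Pool.Agent.V1120.Ladder.Tails

/-!
# Bounded closed subsets of the one-point compactification are Eberlein/Corson; the whole is not

* `corson_of_bounded`: if the ladders of the points `≤ δ` have pairwise disjoint tails, then every
  closed subset of the one-point compactification contained in the part of level `≤ δ` embeds in a
  `Σ`-product.
* `not_corson`: if `S` meets every club, the whole one-point compactification does not.
-/

set_option autoImplicit false
set_option linter.unusedSectionVars false

namespace Pool.Agent.V1120.Ladder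

open Set Filter Topology

variable {α : Type} [LinearOrder α] {S : Set α} {η : S → ℕ → α}

/-- The points of level at most `δ`, and the point at infinity. -/
def below (η : S → ℕ → α) (δ : α) : Set (OnePoint (LSpace η)) :=
  ((↑) '' {y : LSpace η | δ < lvl y})ᶜ

theorem isClosed_below (h : IsLadder η) (δ : α) : IsClosed (below η δ) := by
  unfold below
  rw [isClosed_compl_iff]
  exact OnePoint.isOpenEmbedding_coe.isOpenMap _ (h.isOpen_gt δ)

theorem coe_mem_below {δ : α} {y : LSpace η} : (y : OnePoint (LSpace η)) ∈ below η δ ↔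
    lvl y ≤ δ := by
  unfold below
  rw [mem_compl_iff]
  constructor
  · intro h1
    by_contra h2
    exact h1 ⟨y, not_le.1 h2, rfl⟩
  · rintro h1 ⟨z, hz, hzy⟩
    have : z = y := OnePoint.coe_injective hzy
    subst this
    exact absurd hz (not_lt.2 h1)

/-- The clopen set attached to a point. -/
def W (f : S → ℕ) (y : LSpace η) : Set (LSpace η) :=
  Sum.elim (fun i => {(iso i : LSpace η)}) (fun a : S => tail a (f a)) y

theorem W_iso (f : S → ℕ) (i : α) : W f (iso i : LSpace η) = {iso i} := rfl
theorem W_lim (f : S → ℕ) (a : S) : W f (lim a : LSpace η) = tail a (f a) := rfl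

theorem isOpen_W (f : S → ℕ) (y : LSpace η) : IsOpen (W f y) := by
  rcases cases' y with ⟨i, rfl⟩ | ⟨a, rfl⟩
  · exact isOpen_iso i
  · exact isOpen_tail a _

theorem isCompact_W (f : S → ℕ) (y : LSpace η) : IsCompact (W f y) := by
  rcases cases' y with ⟨i, rfl⟩ | ⟨a, rfl⟩
  · exact isCompact_singleton
  · exact isCompact_tail a _

theorem isClopen_coe_W (h : IsLadder η) (f : S → ℕ) (y : LSpace η) :
    IsClopen ((↑) '' (W f y) : Set (OnePoint (LSpace η))) := by
  have := h.t2
  exact ⟨((isCompact_W f y).image OnePoint.continuous_coe).isClosed,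
    OnePoint.isOpenEmbedding_coe.isOpenMap _ (isOpen_W f y)⟩

theorem corson_of_bounded (h : IsLadder η) (δ : α) (f : S → ℕ)
    (hf : Tails η (fun x => x ≤ δ) f) (A : Set (OnePoint (LSpace η))) (hA : A ⊆ below η δ) :
    ∃ (Γ : Type) (F : ↥(closure A) → (Γ → ℝ)), Topology.IsEmbedding F ∧
      ∀ x, (Function.support (F x)).Countable := by
  classical
  have := h.t2
  have hcl : closure A ⊆ below η δ := closure_minimal hA (isClosed_below h δ)
  -- the points of level `≤ δ`
  let Γ : Type := {y : LSpace η // lvl y ≤ δ}
  let F : ↥(closure A) → (Γ → ℝ) := fun x y =>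
    Set.indicator ((↑) '' (W f y.1) : Set (OnePoint (LSpace η))) (fun _ => (1 : ℝ)) x.1
  have hFc : Continuous F := by
    refine continuous_pi (fun y => ?_)
    have h1 : Continuous (Set.indicator ((↑) '' (W f y.1) : Set (OnePoint (LSpace η)))
        (fun _ => (1 : ℝ))) :=
      continuous_const.indicator (by simp [(isClopen_coe_W h f y.1).frontier_eq])
    exact h1.comp continuous_subtype_val
  have hFi : Function.Injective F := by
    -- it suffices to separate a non-infinite point from any other one
    have key : ∀ (x x' : ↥(closure A)) (y : LSpace η), x.1 = (y : OnePoint (LSpace η)) → F x = F x' →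
        x'.1 = x.1 ∨ ∃ y' : LSpace η, x'.1 = (y' : OnePoint (LSpace η)) ∧ y ≠ y' ∧ y' ∈ W f y := by
      intro x x' y hx hF
      have hy : lvl y ≤ δ := by
        have := hcl x.2
        rw [hx] at this
        exact coe_mem_below.1 this
      have h1 := congrFun hF ⟨y, hy⟩
      have hyW : y ∈ W f y := by
        rcases cases' y with ⟨i, rfl⟩ | ⟨a, rfl⟩
        · exact rfl
        · exact lim_mem_tail a _
      have h2 : x.1 ∈ ((↑) '' (W f y) : Set (OnePoint (LSpace η))) := by
        rw [hx]
        exact ⟨y, hyW, rfl⟩
      have h3 : x'.1 ∈ ((↑) '' (W f y) : Set (OnePoint (LSpace η))) := by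
        by_contra h3
        simp only [F] at h1
        rw [Set.indicator_of_mem h2, Set.indicator_of_notMem h3] at h1
        exact one_ne_zero h1
      obtain ⟨y', hy', hy'x⟩ := h3
      by_cases hyy : y = y'
      · left
        rw [hx, ← hy'x, hyy]
      · exact Or.inr ⟨y', hy'x.symm, hyy, hy'⟩
    have key2 : ∀ (x x' : ↥(closure A)) (y : LSpace η), x.1 = (y : OnePoint (LSpace η)) →
        F x = F x' → x = x' := by
      intro x x' y hx hF
      rcases key x x' y hx hF with h1 | ⟨y', hx', hne, hmem⟩
      · exact Subtype.ext h1.symm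
      · exfalso
        rcases key x' x y' hx' hF.symm with h1 | ⟨y'', hx'', hne', hmem'⟩
        · rw [hx, hx'] at h1
          exact hne (OnePoint.coe_injective h1)
        · have : y'' = y := OnePoint.coe_injective (hx''.symm.trans hx)
          subst this
          -- `y' ∈ W y''` and `y'' ∈ W y'`, `y'' ≠ y'`
          rcases cases' y'' with ⟨i, rfl⟩ | ⟨a, rfl⟩
          · rw [W_iso] at hmem
            exact hne hmem.symm
          · rcases cases' y' with ⟨j, rfl⟩ | ⟨b, rfl⟩
            · rw [W_iso] at hmem'
              exact hne hmem'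
            · rw [W_lim, lim_mem_tail_iff] at hmem
              exact hne (by rw [hmem])
    intro x x' hF
    rcases hx : x.1 with _ | y
    · rcases hx' : x'.1 with _ | y'
      · exact Subtype.ext (hx.trans hx'.symm)
      · exact (key2 x' x y' hx' hF.symm).symm
    · exact key2 x x' y hx hF
  have hcomp : CompactSpace ↥(closure A) := isCompact_iff_compactSpace.1 isClosed_closure.isCompact
  refine ⟨Γ, F, (hFc.isClosedEmbedding hFi).isEmbedding, ?_⟩
  intro x
  rcases hx : x.1 with _ | y
  · -- the point at infinity
    have : Function.support (F x) = ∅ := by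
      rw [Function.support_eq_empty_iff]
      funext y
      simp only [F]
      rw [Set.indicator_of_notMem]
      · rfl
      · rintro ⟨z, _, hz⟩
        rw [hx] at hz
        exact OnePoint.coe_ne_infty z hz
    rw [this]
    exact countable_empty
  · -- the support consists of at most two points
    have hsub : Function.support (F x) ⊆ {z : Γ | y ∈ W f z.1} := by
      intro z hz
      rw [Function.mem_support] at hz
      by_contra hcon
      apply hz
      simp only [F]
      rw [Set.indicator_of_notMem]
      rintro ⟨w, hw, hwx⟩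
      rw [hx] at hwx
      have : w = y := OnePoint.coe_injective hwx
      subst this
      exact hcon hw
    refine Countable.mono hsub ?_
    rcases cases' y with ⟨i, rfl⟩ | ⟨a, rfl⟩
    · -- `iso i`
      have hsub2 : ∃ T : Set Γ, T.Subsingleton ∧ {z : Γ | (iso i : LSpace η) ∈ W f z.1} ⊆
          T ∪ {z : Γ | z.1 = iso i} := by
        refine ⟨{z : Γ | (iso i : LSpace η) ∈ W f z.1 ∧ ∃ a : S, z.1 = lim a}, ?_, ?_⟩
        · rintro ⟨z, hz⟩ ⟨h1, a, rfl⟩ ⟨w, hw⟩ ⟨h2, b, rfl⟩
          dsimp only at h1 h2
          rw [W_lim, iso_mem_tail_iff] at h1 h2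
          obtain ⟨n, hn, hni⟩ := h1
          obtain ⟨m, hm, hmi⟩ := h2
          by_contra hne
          have hab : a ≠ b := by
            rintro rfl
            exact hne rfl
          exact hf a b hz hw hab n m hn hm (hni.trans hmi.symm)
        · rintro ⟨z, hz⟩ h1
          rcases cases' z with ⟨j, rfl⟩ | ⟨a, rfl⟩
          · right
            change (iso i : LSpace η) ∈ W f (iso j : LSpace η) at h1
            rw [W_iso] at h1
            exact h1.symm
          · left
            exact ⟨h1, a, rfl⟩
      obtain ⟨T, hT, hsub3⟩ := hsub2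
      refine Countable.mono hsub3 (hT.countable.union ?_)
      refine Set.Subsingleton.countable ?_
      intro z hz w hw
      exact Subtype.ext (hz.trans hw.symm)
    · refine Set.Subsingleton.countable ?_
      have : ∀ z : Γ, (lim a : LSpace η) ∈ W f z.1 → z.1 = lim a := by
        rintro ⟨z, hz⟩ h1
        rcases cases' z with ⟨j, rfl⟩ | ⟨b, rfl⟩
        · change (lim a : LSpace η) ∈ W f (iso j : LSpace η) at h1
          rw [W_iso] at h1
          exact h1.symm
        · change (lim a : LSpace η) ∈ W f (lim b : LSpace η) at h1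
          rw [W_lim, lim_mem_tail_iff] at h1
          change lim b = lim a
          rw [h1]
      intro z hz w hw
      exact Subtype.ext ((this z hz).trans (this w hw).symm)

/-- The whole one-point compactification is not Corson. -/
theorem not_corson (h : IsLadder η)
    (hbdd : ∀ B : Set α, B.Countable → ∃ b, ∀ x ∈ B, x < b)
    (hclub : ∀ G : α → α, ∃ δ : α, δ ∈ S ∧ ∀ i < δ, G i < δ) :
    ¬ ∃ (Γ : Type) (F : OnePoint (LSpace η) → (Γ → ℝ)), Topology.IsEmbedding F ∧
      ∀ x, (Function.support (F x)).Countable := by
  classical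
  rintro ⟨Γ, F, hF, hsupp⟩
  have hFc : Continuous F := hF.continuous
  let ψ : LSpace η → Γ → ℝ := fun y t => F (y : OnePoint (LSpace η)) t - F OnePoint.infty t
  have hψsupp : ∀ y, {t | ψ y t ≠ 0}.Countable := by
    intro y
    refine Countable.mono ?_ ((hsupp y).union (hsupp OnePoint.infty))
    intro t ht
    by_contra hcon
    rw [mem_union, not_or, Function.notMem_support, Function.notMem_support] at hcon
    apply ht
    simp only [ψ]
    rw [hcon.1, hcon.2, sub_zero]
  have hψne : ∀ y, ∃ t, ψ y t ≠ 0 := by
    intro y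
    by_contra hcon
    push Not at hcon
    have : F (y : OnePoint (LSpace η)) = F OnePoint.infty := by
      funext t
      have := hcon t
      simp only [ψ] at this
      linarith
    exact OnePoint.coe_ne_infty y (hF.injective this)
  have hψc : ∀ t, Continuous (fun y => ψ y t) := by
    intro t
    exact (((continuous_apply t).comp hFc).comp OnePoint.continuous_coe).sub continuous_const
  -- the set of points where a coordinate does not vanish is countable
  have hcount : ∀ t, {y | ψ y t ≠ 0}.Countable := by
    intro t
    have hK : ∀ n : ℕ, {y | 1 / ((n : ℝ) + 1) ≤ |ψ y t|}.Countable := by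
      intro n
      apply countable_of_isCompact
      -- as a closed subset of the compactification missing infinity
      let K : Set (OnePoint (LSpace η)) := {x | 1 / ((n : ℝ) + 1) ≤ |F x t - F OnePoint.infty t|}
      have hKc : IsCompact K := by
        refine IsClosed.isCompact ?_
        exact isClosed_le continuous_const
          ((((continuous_apply t).comp hFc).sub continuous_const).abs)
      have hinf : OnePoint.infty ∉ K := by
        intro hcon
        simp only [K] at hcon
        have h1 : 1 / ((n : ℝ) + 1) ≤ |F OnePoint.infty t - F OnePoint.infty t| := hcon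
        rw [sub_self, abs_zero] at h1
        have : 0 < 1 / ((n : ℝ) + 1) := by positivity
        linarith
      have heq : {y | 1 / ((n : ℝ) + 1) ≤ |ψ y t|} = (↑) ⁻¹' K := rfl
      rw [heq]
      refine OnePoint.isOpenEmbedding_coe.isInducing.isCompact_preimage' hKc ?_
      intro x hx
      rcases hx' : x with _ | y
      · rw [hx'] at hx
        exact absurd hx hinf
      · exact ⟨y, rfl⟩
    refine (countable_iUnion hK).mono ?_
    intro y hy
    obtain ⟨n, hn⟩ := exists_nat_one_div_lt (abs_pos.2 hy)
    exact mem_iUnion.2 ⟨n, hn.le⟩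
  -- neighbours
  have hN : ∀ i : α, {a : α | ∃ ha : a ∈ S, ∃ t, ψ (iso i) t ≠ 0 ∧ ψ (lim ⟨a, ha⟩) t ≠ 0}.Countable := by
    intro i
    have h1 : (⋃ t ∈ {t | ψ (iso i) t ≠ 0}, {y | ψ y t ≠ 0}).Countable :=
      (hψsupp (iso i)).biUnion (fun t _ => hcount t)
    refine (h1.image lvl).mono ?_
    rintro a ⟨ha, t, ht1, ht2⟩
    refine ⟨lim ⟨a, ha⟩, ?_, rfl⟩
    exact mem_biUnion (x := t) ht1 ht2
  choose G hG using fun i => hbdd _ (hN i)
  obtain ⟨δ, hδS, hδ⟩ := hclub G
  obtain ⟨t, ht⟩ := hψne (lim ⟨δ, hδS⟩)
  have htend : Tendsto (fun n => ψ (iso (η ⟨δ, hδS⟩ n)) t) atTop (𝓝 (ψ (lim ⟨δ, hδS⟩) t)) :=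
    ((hψc t).tendsto _).comp (tendsto_lim ⟨δ, hδS⟩)
  obtain ⟨n, hn⟩ := (htend.eventually_ne ht).exists
  have h1 : η ⟨δ, hδS⟩ n < δ := h.lt ⟨δ, hδS⟩ n
  have h2 := hG (η ⟨δ, hδS⟩ n) δ ⟨hδS, t, hn, ht⟩
  exact lt_asymm h2 (hδ _ h1)

end Pool.Agent.V1120.Ladder
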