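import Mathlib

/-!
# The ladder space

For a linearly ordered type `α`, a set `S : Set α` and a ladder system `η : S → ℕ → α`, the space
`LSpace η` has the points `iso i` (`i : α`), all isolated, and `lim a` (`a : S`), a neighbourhood
base of `lim a` being given by the tails of the sequence `iso (η a n)` together with `lim a`.
-/

set_option autoImplicit false
set_option linter.unusedSectionVars false

namespace Pool.Agent.V1120.Ladder

open Set Filter Topology

variable {α : Type} [LinearOrder α] {S : Set α}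

/-- The underlying set of the ladder space. -/
def LSpace (_η : S → ℕ → α) : Type := α ⊕ S

variable {η : S → ℕ → α}

/-- isolated points -/
def iso (i : α) : LSpace η := (Sum.inl i : α ⊕ S)

/-- limit points -/
def lim (a : S) : LSpace η := (Sum.inr a : α ⊕ S)

theorem cases' (y : LSpace η) : (∃ i, y = iso i) ∨ (∃ a, y = lim a) := by
  rcases y with i | a
  · exact Or.inl ⟨i, rfl⟩
  · exact Or.inr ⟨a, rfl⟩

theorem iso_inj {i j : α} (h : (iso i : LSpace η) = iso j) : i = j := Sum.inl_injective h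

theorem lim_inj {a b : S} (h : (lim a : LSpace η) = lim b) : a = b := Sum.inr_injective h

theorem iso_ne_lim {i : α} {a : S} : (iso i : LSpace η) ≠ lim a := by
  intro h
  exact Sum.inl_ne_inr h

instance : TopologicalSpace (LSpace η) where
  IsOpen U := ∀ a : S, lim a ∈ U → ∀ᶠ n in atTop, iso (η a n) ∈ U
  isOpen_univ := fun a _ => by simp
  isOpen_inter := fun U V hU hV a ha => by
    filter_upwards [hU a ha.1, hV a ha.2] with n h1 h2
    exact ⟨h1, h2⟩
  isOpen_sUnion := fun 𝒰 h𝒰 a ha => by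
    obtain ⟨U, hU, haU⟩ := ha
    filter_upwards [h𝒰 U hU a haU] with n hn
    exact ⟨U, hU, hn⟩

theorem isOpen_iff' (U : Set (LSpace η)) :
    IsOpen U ↔ ∀ a : S, lim a ∈ U → ∀ᶠ n in atTop, iso (η a n) ∈ U := Iff.rfl

theorem isOpen_iso (i : α) : IsOpen ({iso i} : Set (LSpace η)) := by
  rw [isOpen_iff']
  intro a ha
  exact absurd ha.symm iso_ne_lim

/-- The basic neighbourhood `{lim a} ∪ {iso (η a n) : n ≥ k}`. -/
def tail (a : S) (k : ℕ) : Set (LSpace η) := insert (lim a) ((fun n => iso (η a n)) '' Ici k)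

theorem isOpen_tail (a : S) (k : ℕ) : IsOpen (tail a k : Set (LSpace η)) := by
  rw [isOpen_iff']
  intro b hb
  have : b = a := by
    rcases hb with hb | ⟨n, _, hn⟩
    · exact lim_inj hb
    · exact absurd hn iso_ne_lim
  subst this
  filter_upwards [eventually_ge_atTop k] with n hn
  exact Or.inr ⟨n, hn, rfl⟩

theorem lim_mem_tail (a : S) (k : ℕ) : lim a ∈ (tail a k : Set (LSpace η)) := Or.inl rfl

theorem lim_mem_tail_iff {a b : S} {k : ℕ} : lim b ∈ (tail a k : Set (LSpace η)) ↔ b = a := by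
  constructor
  · rintro (hb | ⟨n, _, hn⟩)
    · exact lim_inj hb
    · exact absurd hn iso_ne_lim
  · rintro rfl
    exact lim_mem_tail b k

theorem iso_mem_tail_iff {a : S} {i : α} {k : ℕ} :
    iso i ∈ (tail a k : Set (LSpace η)) ↔ ∃ n, k ≤ n ∧ η a n = i := by
  constructor
  · rintro (hb | ⟨n, hk, hn⟩)
    · exact absurd hb iso_ne_lim
    · exact ⟨n, hk, iso_inj hn⟩
  · rintro ⟨n, hk, rfl⟩
    exact Or.inr ⟨n, hk, rfl⟩

theorem tendsto_lim (a : S) : Tendsto (fun n => (iso (η a n) : LSpace η)) atTop (𝓝 (lim a)) := by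
  rw [tendsto_nhds]
  intro U hU ha
  exact (isOpen_iff' U).1 hU a ha

theorem isCompact_tail (a : S) (k : ℕ) : IsCompact (tail a k : Set (LSpace η)) := by
  have h : Tendsto (fun n => (iso (η a (n + k)) : LSpace η)) atTop (𝓝 (lim a)) :=
    (tendsto_lim a).comp (tendsto_add_atTop_nat k)
  have h2 := h.isCompact_insert_range
  convert h2 using 1
  unfold tail
  congr 1
  ext y
  constructor
  · rintro ⟨n, hn, rfl⟩
    refine ⟨n - k, ?_⟩
    simp only [mem_Ici] at hn
    simp only [Nat.sub_add_cancel hn]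
  · rintro ⟨n, rfl⟩
    exact ⟨n + k, by simp, rfl⟩

theorem countable_tail (a : S) (k : ℕ) : (tail a k : Set (LSpace η)).Countable :=
  ((Set.to_countable _).image _).insert _

instance : WeaklyLocallyCompactSpace (LSpace η) where
  exists_compact_mem_nhds := by
    intro y
    rcases cases' y with ⟨i, rfl⟩ | ⟨a, rfl⟩
    · exact ⟨{iso i}, isCompact_singleton, (isOpen_iso i).mem_nhds rfl⟩
    · exact ⟨tail a 0, isCompact_tail a 0, (isOpen_tail a 0).mem_nhds (lim_mem_tail a 0)⟩

theorem exists_countable_open (y : LSpace η) : ∃ U : Set (LSpace η), IsOpen U ∧ y ∈ U ∧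
    U.Countable := by
  rcases cases' y with ⟨i, rfl⟩ | ⟨a, rfl⟩
  · exact ⟨{iso i}, isOpen_iso i, rfl, countable_singleton _⟩
  · exact ⟨tail a 0, isOpen_tail a 0, lim_mem_tail a 0, countable_tail a 0⟩

theorem countable_of_isCompact {K : Set (LSpace η)} (hK : IsCompact K) : K.Countable := by
  choose U hU hy hc using fun y : LSpace η => exists_countable_open y
  obtain ⟨t, ht⟩ := hK.elim_nhds_subcover U (fun y _ => (hU y).mem_nhds (hy y))
  exact (Countable.biUnion t.countable_toSet (fun y _ => hc y)).mono ht.2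

/-- The hypotheses on a ladder system. -/
structure IsLadder (η : S → ℕ → α) : Prop where
  mono : ∀ a, StrictMono (η a)
  lt : ∀ a n, η a n < a
  cof : ∀ (a : S) (x : α), x < a → ∃ n, x < η a n

theorem IsLadder.eventually_lt (h : IsLadder η) {a : S} {x : α} (hx : x < a) :
    ∀ᶠ n in atTop, x < η a n := by
  obtain ⟨n, hn⟩ := h.cof a x hx
  filter_upwards [eventually_ge_atTop n] with m hm
  exact hn.trans_le ((h.mono a).monotone hm)

theorem IsLadder.eventually_ne (h : IsLadder η) (a : S) (x : α) :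
    ∀ᶠ n in atTop, η a n ≠ x := by
  rcases lt_or_ge x a with hx | hx
  · filter_upwards [h.eventually_lt hx] with n hn
    exact hn.ne'
  · exact Eventually.of_forall (fun n => ((h.lt a n).trans_le hx).ne)

theorem IsLadder.t2 (h : IsLadder η) : T2Space (LSpace η) := by
  have key1 : ∀ (i : α) (a : S), ∃ U V : Set (LSpace η), IsOpen U ∧ IsOpen V ∧ iso i ∈ U ∧
      lim a ∈ V ∧ Disjoint U V := by
    intro i a
    obtain ⟨k, hk⟩ := eventually_atTop.1 (h.eventually_ne a i)
    refine ⟨{iso i}, tail a k, isOpen_iso i, isOpen_tail a k, rfl, lim_mem_tail a k, ?_⟩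
    rw [disjoint_singleton_left, iso_mem_tail_iff]
    rintro ⟨n, hn, hn'⟩
    exact hk n hn hn'
  have key2 : ∀ (a b : S), (a : α) < b → ∃ U V : Set (LSpace η), IsOpen U ∧ IsOpen V ∧ lim a ∈ U ∧
      lim b ∈ V ∧ Disjoint U V := by
    intro a b hab
    obtain ⟨k, hk⟩ := eventually_atTop.1 (h.eventually_lt hab)
    refine ⟨tail a 0, tail b k, isOpen_tail a 0, isOpen_tail b k, lim_mem_tail a 0,
      lim_mem_tail b k, ?_⟩
    rw [Set.disjoint_left]
    intro y hy hy'
    rcases cases' y with ⟨i, rfl⟩ | ⟨c, rfl⟩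
    · rw [iso_mem_tail_iff] at hy hy'
      obtain ⟨n, _, hn⟩ := hy
      obtain ⟨m, hm, hm'⟩ := hy'
      have h1 := h.lt a n
      have h2 := hk m hm
      rw [hn] at h1
      rw [hm'] at h2
      exact lt_asymm h1 h2
    · rw [lim_mem_tail_iff] at hy hy'
      subst hy
      subst hy'
      exact lt_irrefl _ hab
  refine ⟨fun x y hxy => ?_⟩
  rcases cases' x with ⟨i, rfl⟩ | ⟨a, rfl⟩ <;> rcases cases' y with ⟨j, rfl⟩ | ⟨b, rfl⟩
  · refine ⟨{iso i}, {iso j}, isOpen_iso i, isOpen_iso j, rfl, rfl, ?_⟩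
    rw [disjoint_singleton_left]
    exact hxy
  · exact key1 i b
  · obtain ⟨U, V, hU, hV, h1, h2, h3⟩ := key1 j a
    exact ⟨V, U, hV, hU, h2, h1, h3.symm⟩
  · have hab : (a : α) ≠ b := by
      intro hab
      exact hxy (by rw [Subtype.ext hab])
    rcases lt_or_gt_of_ne hab with hab | hab
    · exact key2 a b hab
    · obtain ⟨U, V, hU, hV, h1, h2, h3⟩ := key2 b a hab
      exact ⟨V, U, hV, hU, h2, h1, h3.symm⟩

/-- The level of a point. -/
def lvl (y : LSpace η) : α := Sum.elim (fun i => i) (fun a : S => (a : α)) y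

@[simp] theorem lvl_iso (i : α) : lvl (iso i : LSpace η) = i := rfl
@[simp] theorem lvl_lim (a : S) : lvl (lim a : LSpace η) = a := rfl

theorem IsLadder.isOpen_gt (h : IsLadder η) (δ : α) : IsOpen {y : LSpace η | δ < lvl y} := by
  rw [isOpen_iff']
  intro a ha
  simp only [mem_setOf_eq, lvl_lim, lvl_iso] at ha ⊢
  exact h.eventually_lt ha

end Pool.Agent.V1120.Ladder
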