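import Pool.Agent.V1120.Ladder.Space

/-!
# Disjoint tails of a ladder system below every point

If no `δ` is a limit of `S` in a bad way (every `δ` has a cofinal set `C ⊆ Iio δ` no limit point of
which below `δ` lies in `S`), then for each `δ` the ladders of the points of `S` which are `≤ δ` can be
truncated to pairwise disjoint tails.
-/

set_option autoImplicit false
set_option linter.unusedSectionVars false

namespace Pool.Agent.V1120.Ladder

open Set Filter Topology

variable {α : Type} [LinearOrder α] [WellFoundedLT α] {S : Set α} {η : S → ℕ → α}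

/-- `C ⊆ Iio δ` is cofinal in `Iio δ` and no point of `S` below `δ` is a limit point of `C`. -/
def Avoid (S : Set α) (δ : α) : Prop :=
  ∃ C : Set α, C ⊆ Iio δ ∧ (∀ x < δ, ∃ c ∈ C, x ≤ c) ∧
    ∀ a ∈ S, a < δ → ∃ c < a, ∀ x ∈ C, x < a → x ≤ c

/-- Pairwise disjoint tails for the points of `S` satisfying `P`. -/
def Tails (η : S → ℕ → α) (P : α → Prop) (f : S → ℕ) : Prop :=
  ∀ a b : S, P a → P b → a ≠ b → ∀ m n, f a ≤ m → f b ≤ n → η a m ≠ η b n

theorem tails_lt (h : IsLadder η) (δ : α) (hC : Avoid S δ)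
    (IH : ∀ γ < δ, ∃ f, Tails η (fun x => x ≤ γ) f) :
    ∃ f, Tails η (fun x => x < δ) f := by
  classical
  have : Nonempty α := ⟨δ⟩
  obtain ⟨C, hCδ, hcof, hlim⟩ := hC
  -- the block of `a`
  have hg : ∀ a : S, (a : α) < δ → ∃ g ∈ C, (a : α) ≤ g ∧ ∀ x ∈ C, (a : α) ≤ x → g ≤ x := by
    intro a ha
    obtain ⟨c, hc, hac⟩ := hcof a ha
    have hne : {x | x ∈ C ∧ (a : α) ≤ x}.Nonempty := ⟨c, hc, hac⟩
    obtain ⟨g, hg, hmin⟩ := WellFounded.has_min (wellFounded_lt (α := α)) _ hne
    exact ⟨g, hg.1, hg.2, fun x hx hax => not_lt.1 (hmin x ⟨hx, hax⟩)⟩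
  choose! g hgC hag hgmin using hg
  choose! c hca hcx using hlim
  choose! F hF using IH
  have hN : ∀ a : S, (a : α) < δ → ∃ N, ∀ n, N ≤ n → c a < η a n := by
    intro a ha
    exact eventually_atTop.1 (h.eventually_lt (hca a a.2 ha))
  choose! N hN using hN
  refine ⟨fun a => max (F (g a) a) (N a), ?_⟩
  -- the asymmetric part
  have key : ∀ a b : S, (a : α) < δ → (b : α) < δ → g a < g b → ∀ m n, N b ≤ n →
      η a m ≠ η b n := by
    intro a b ha hb hab m n hn
    have h1 : g a < b := by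
      by_contra hcon
      exact absurd (hgmin b hb (g a) (hgC a ha) (not_lt.1 hcon)) (not_le.2 hab)
    have h2 : g a ≤ c b := hcx b b.2 hb (g a) (hgC a ha) h1
    have h3 : c b < η b n := hN b hb n hn
    have h4 : η a m < a := h.lt a m
    exact ((h4.trans_le (hag a ha)).trans_le h2 |>.trans h3).ne
  intro a b ha hb hab m n hm hn
  rcases lt_trichotomy (g a) (g b) with hlt | heq | hlt
  · exact key a b ha hb hlt m n ((le_max_right _ _).trans hn)
  · have h1 := hF (g a) (hCδ (hgC a ha)) a b (hag a ha) (by rw [heq]; exact hag b hb) hab m n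
    refine h1 ((le_max_left _ _).trans hm) ?_
    rw [heq]
    exact (le_max_left _ _).trans hn
  · exact (key b a hb ha hlt n m ((le_max_right _ _).trans hm)).symm

theorem tails_le_of_lt (h : IsLadder η) (δ : α)
    (hf : ∃ f, Tails η (fun x => x < δ) f) : ∃ f, Tails η (fun x => x ≤ δ) f := by
  classical
  obtain ⟨f, hf⟩ := hf
  by_cases hδ : δ ∈ S
  · -- make the others disjoint from the ladder of `δ`
    have hfin : ∀ a : S, (a : α) < δ → ∃ N, ∀ n, N ≤ n → ∀ m, η a n ≠ η ⟨δ, hδ⟩ m := by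
      intro a ha
      obtain ⟨k, hk⟩ := eventually_atTop.1 (h.eventually_lt (a := ⟨δ, hδ⟩) ha)
      have h1 : ∀ᶠ n in atTop, ∀ m ∈ Finset.range k, η a n ≠ η ⟨δ, hδ⟩ m := by
        rw [eventually_all_finset]
        intro m _
        exact h.eventually_ne a _
      obtain ⟨N, hN⟩ := eventually_atTop.1 h1
      refine ⟨N, fun n hn m => ?_⟩
      by_cases hmk : m < k
      · exact hN n hn m (Finset.mem_range.2 hmk)
      · have h2 := hk m (not_lt.1 hmk)
        exact ((h.lt a n).trans h2).ne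
    choose! N hN using hfin
    refine ⟨fun a => max (f a) (N a), ?_⟩
    intro a b ha hb hab m n hm hn
    rcases lt_or_eq_of_le ha with ha' | ha' <;> rcases lt_or_eq_of_le hb with hb' | hb'
    · exact hf a b ha' hb' hab m n ((le_max_left _ _).trans hm) ((le_max_left _ _).trans hn)
    · have hb2 : b = ⟨δ, hδ⟩ := Subtype.ext hb'
      subst hb2
      exact hN a ha' m ((le_max_right _ _).trans hm) n
    · have ha2 : a = ⟨δ, hδ⟩ := Subtype.ext ha'
      subst ha2
      exact (hN b hb' n ((le_max_right _ _).trans hn) m).symm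
    · exact absurd (Subtype.ext (ha'.trans hb'.symm)) hab
  · refine ⟨f, ?_⟩
    intro a b ha hb hab m n hm hn
    have h1 : (a : α) < δ := lt_of_le_of_ne ha (fun h => hδ (h ▸ a.2))
    have h2 : (b : α) < δ := lt_of_le_of_ne hb (fun h => hδ (h ▸ b.2))
    exact hf a b h1 h2 hab m n hm hn

theorem exists_tails (h : IsLadder η) (hC : ∀ δ, Avoid S δ) (δ : α) :
    ∃ f, Tails η (fun x => x ≤ δ) f := by
  induction δ using WellFoundedLT.induction with
  | ind δ IH => exact tails_le_of_lt h δ (tails_lt h δ (hC δ) IH)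

end Pool.Agent.V1120.Ladder
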