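import Pool.Agent.V1120.Ladder.Club
import Pool.Agent.V1120.Bandlow.Reflect

/-!
# Small closed subsets of the ladder compactum are Eberlein compact with finite supports
-/

set_option autoImplicit false
set_option linter.unusedSectionVars false

namespace Pool.Agent.V1120.Ladder

open Set Filter Topology

variable {α : Type} [LinearOrder α] {S : Set α} {η : S → ℕ → α}

theorem uniform_of_bounded (h : IsLadder η) (δ : α) (f : S → ℕ)
    (hf : Tails η (fun x => x ≤ δ) f) (A : Set (OnePoint (LSpace η))) (hA : A ⊆ below η δ) :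
    ∃ (Γ : Type) (F : ↥(closure A) → (Γ → ℝ)), Topology.IsEmbedding F ∧
      (∀ x, (Function.support (F x)).Finite) ∧ ∀ x γ, |F x γ| ≤ 1 := by
  classical
  have := h.t2
  have hcl : closure A ⊆ below η δ := closure_minimal hA (isClosed_below h δ)
  -- the points of level `≤ δ`
  let Γ : Type := {y : LSpace η // lvl y ≤ δ}
  let F : ↥(closure A) → (Γ → ℝ) := fun x y =>
    Set.indicator ((↑) '' (W f y.1) : Set (OnePoint (LSpace η))) (fun _ => (1 : ℝ)) x.1
  have hFc : Continuous F := by
    refine continuous_pi (fun y => ?_)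
    have h1 : Continuous (Set.indicator ((↑) '' (W f y.1) : Set (OnePoint (LSpace η)))
        (fun _ => (1 : ℝ))) :=
      continuous_const.indicator (by simp [(isClopen_coe_W h f y.1).frontier_eq])
    exact h1.comp continuous_subtype_val
  have hFi : Function.Injective F := by
    -- it suffices to separate a non-infinite point from any other one
    have key : ∀ (x x' : ↥(closure A)) (y : LSpace η), x.1 = (y : OnePoint (LSpace η)) → F x = F x' →
        x'.1 = x.1 ∨ ∃ y' : LSpace η, x'.1 = (y' : OnePoint (LSpace η)) ∧ y ≠ y' ∧ y' ∈ W f y := by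
      intro x x' y hx hF
      have hy : lvl y ≤ δ := by
        have := hcl x.2
        rw [hx] at this
        exact coe_mem_below.1 this
      have h1 := congrFun hF ⟨y, hy⟩
      have hyW : y ∈ W f y := by
        rcases cases' y with ⟨i, rfl⟩ | ⟨a, rfl⟩
        · exact rfl
        · exact lim_mem_tail a _
      have h2 : x.1 ∈ ((↑) '' (W f y) : Set (OnePoint (LSpace η))) := by
        rw [hx]
        exact ⟨y, hyW, rfl⟩
      have h3 : x'.1 ∈ ((↑) '' (W f y) : Set (OnePoint (LSpace η))) := by
        by_contra h3
        simp only [F] at h1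
        rw [Set.indicator_of_mem h2, Set.indicator_of_notMem h3] at h1
        exact one_ne_zero h1
      obtain ⟨y', hy', hy'x⟩ := h3
      by_cases hyy : y = y'
      · left
        rw [hx, ← hy'x, hyy]
      · exact Or.inr ⟨y', hy'x.symm, hyy, hy'⟩
    have key2 : ∀ (x x' : ↥(closure A)) (y : LSpace η), x.1 = (y : OnePoint (LSpace η)) →
        F x = F x' → x = x' := by
      intro x x' y hx hF
      rcases key x x' y hx hF with h1 | ⟨y', hx', hne, hmem⟩
      · exact Subtype.ext h1.symm
      · exfalso
        rcases key x' x y' hx' hF.symm with h1 | ⟨y'', hx'', hne', hmem'⟩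
        · rw [hx, hx'] at h1
          exact hne (OnePoint.coe_injective h1)
        · have : y'' = y := OnePoint.coe_injective (hx''.symm.trans hx)
          subst this
          -- `y' ∈ W y''` and `y'' ∈ W y'`, `y'' ≠ y'`
          rcases cases' y'' with ⟨i, rfl⟩ | ⟨a, rfl⟩
          · rw [W_iso] at hmem
            exact hne hmem.symm
          · rcases cases' y' with ⟨j, rfl⟩ | ⟨b, rfl⟩
            · rw [W_iso] at hmem'
              exact hne hmem'
            · rw [W_lim, lim_mem_tail_iff] at hmem
              exact hne (by rw [hmem])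
    intro x x' hF
    rcases hx : x.1 with _ | y
    · rcases hx' : x'.1 with _ | y'
      · exact Subtype.ext (hx.trans hx'.symm)
      · exact (key2 x' x y' hx' hF.symm).symm
    · exact key2 x x' y hx hF
  have hcomp : CompactSpace ↥(closure A) := isCompact_iff_compactSpace.1 isClosed_closure.isCompact
  refine ⟨Γ, F, (hFc.isClosedEmbedding hFi).isEmbedding, ?_, ?_⟩
  swap
  · intro x y
    simp only [F, Set.indicator_apply]
    split_ifs <;> simp
  intro x
  rcases hx : x.1 with _ | y
  · -- the point at infinity
    have : Function.support (F x) = ∅ := by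
      rw [Function.support_eq_empty_iff]
      funext y
      simp only [F]
      rw [Set.indicator_of_notMem]
      · rfl
      · rintro ⟨z, _, hz⟩
        rw [hx] at hz
        exact OnePoint.coe_ne_infty z hz
    rw [this]
    exact Set.finite_empty
  · -- the support consists of at most two points
    have hsub : Function.support (F x) ⊆ {z : Γ | y ∈ W f z.1} := by
      intro z hz
      rw [Function.mem_support] at hz
      by_contra hcon
      apply hz
      simp only [F]
      rw [Set.indicator_of_notMem]
      rintro ⟨w, hw, hwx⟩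
      rw [hx] at hwx
      have : w = y := OnePoint.coe_injective hwx
      subst this
      exact hcon hw
    refine Set.Finite.subset ?_ hsub
    rcases cases' y with ⟨i, rfl⟩ | ⟨a, rfl⟩
    · -- `iso i`
      have hsub2 : ∃ T : Set Γ, T.Subsingleton ∧ {z : Γ | (iso i : LSpace η) ∈ W f z.1} ⊆
          T ∪ {z : Γ | z.1 = iso i} := by
        refine ⟨{z : Γ | (iso i : LSpace η) ∈ W f z.1 ∧ ∃ a : S, z.1 = lim a}, ?_, ?_⟩
        · rintro ⟨z, hz⟩ ⟨h1, a, rfl⟩ ⟨w, hw⟩ ⟨h2, b, rfl⟩
          dsimp only at h1 h2
          rw [W_lim, iso_mem_tail_iff] at h1 h2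
          obtain ⟨n, hn, hni⟩ := h1
          obtain ⟨m, hm, hmi⟩ := h2
          by_contra hne
          have hab : a ≠ b := by
            rintro rfl
            exact hne rfl
          exact hf a b hz hw hab n m hn hm (hni.trans hmi.symm)
        · rintro ⟨z, hz⟩ h1
          rcases cases' z with ⟨j, rfl⟩ | ⟨a, rfl⟩
          · right
            change (iso i : LSpace η) ∈ W f (iso j : LSpace η) at h1
            rw [W_iso] at h1
            exact h1.symm
          · left
            exact ⟨h1, a, rfl⟩
      obtain ⟨T, hT, hsub3⟩ := hsub2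
      refine Set.Finite.subset (hT.finite.union ?_) hsub3
      refine Set.Subsingleton.finite ?_
      intro z hz w hw
      exact Subtype.ext (hz.trans hw.symm)
    · refine Set.Subsingleton.finite ?_
      have : ∀ z : Γ, (lim a : LSpace η) ∈ W f z.1 → z.1 = lim a := by
        rintro ⟨z, hz⟩ h1
        rcases cases' z with ⟨j, rfl⟩ | ⟨b, rfl⟩
        · change (lim a : LSpace η) ∈ W f (iso j : LSpace η) at h1
          rw [W_iso] at h1
          exact h1.symm
        · change (lim a : LSpace η) ∈ W f (lim b : LSpace η) at h1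
          rw [W_lim, lim_mem_tail_iff] at h1
          change lim b = lim a
          rw [h1]
      intro z hz w hw
      exact Subtype.ext ((this z hz).trans (this w hw).symm)


/-- The main theorem, for a well-ordered type, with finite supports. -/
theorem main' [WellFoundedLT α] {S : Set α}
    (hω : ∀ a ∈ S, Order.cof (Iio a) = Cardinal.aleph0)
    (hst : IsStationary S)
    (hnr : ∀ δ : α, Cardinal.aleph0 < Order.cof (Iio δ) →
      ¬ IsStationary {x : Iio δ | (x : α) ∈ S})
    (hcont : ∀ B : Set α, Cardinal.mk B ≤ Cardinal.continuum → ∃ b, ∀ x ∈ B, x < b)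
    (hIio : ∀ (G : α → α) (a : α), ∃ b, ∀ x ∈ G '' Iio a, x < b) :
    ∃ (X : Type) (_ : TopologicalSpace X), CompactSpace X ∧ T2Space X ∧
      (∀ A : Set X, Cardinal.mk A ≤ Cardinal.continuum →
        ∃ (Γ : Type) (f : ↥(closure A) → (Γ → ℝ)), Topology.IsEmbedding f ∧
          (∀ x, (Function.support (f x)).Finite) ∧ ∀ x γ, |f x γ| ≤ 1) ∧
      ¬ ∃ (Γ : Type) (f : X → (Γ → ℝ)),
        Topology.IsEmbedding f ∧ ∀ x, (Function.support (f x)).Countable := by
  classical
  obtain ⟨η, hη⟩ := exists_ladder hω
  have hpred : ∀ a ∈ S, ∃ c, c < a := fun a ha => ⟨η ⟨a, ha⟩ 0, hη.lt ⟨a, ha⟩ 0⟩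
  have hC : ∀ δ, Avoid S δ := by
    intro δ
    rcases le_or_gt (Order.cof (Iio δ)) Cardinal.aleph0 with h | h
    · exact avoid_of_countable hpred h
    · exact avoid_of_not_isStationary hpred (hnr δ h)
  have hbdd : ∀ B : Set α, B.Countable → ∃ b, ∀ x ∈ B, x < b := fun B hB =>
    hcont B ((Cardinal.le_aleph0_iff_set_countable.2 hB).trans Cardinal.aleph0_le_continuum)
  have ht2 := hη.t2
  refine ⟨OnePoint (LSpace η), inferInstance, inferInstance, inferInstance, ?_, ?_⟩
  · intro A hA
    have hB : Cardinal.mk (lvl '' (((↑) : LSpace η → OnePoint (LSpace η)) ⁻¹' A)) ≤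
        Cardinal.continuum := by
      refine (Cardinal.mk_image_le).trans (le_trans ?_ hA)
      exact Cardinal.mk_preimage_of_injective _ _ OnePoint.coe_injective
    obtain ⟨δ, hδ⟩ := hcont _ hB
    obtain ⟨f, hf⟩ := exists_tails hη hC δ
    refine uniform_of_bounded hη δ f hf A ?_
    intro x hx
    rcases hx' : x with _ | y
    · rintro ⟨z, _, hz⟩
      exact OnePoint.coe_ne_infty z hz
    · refine coe_mem_below.2 (hδ (lvl y) ⟨y, ?_, rfl⟩).le
      rw [hx'] at hx
      exact hx
  · exact not_corson hη hbdd (fun G => club_of_stationary hst hbdd hIio G)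

end Pool.Agent.V1120.Ladder
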